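import Mathlib
import Pool.Agent.X90.DN.One

/-!
# MP_0eb725_nt: no small relation between `π ^ w` and the first integrals

Let `I_{w,k}` be the imaginary part of the sum of `ρ ^ (n₂ - n₁) / (n₁ ^ (w - 2k) n₂ ^ (2k))` over
`n₁ > n₂ ≥ 1`, `ρ = exp (π i / 3)`, and `Gl_w = ∑ sin (n π / 3) / n ^ w`, a rational multiple of `π ^ w` for
odd `w`. For every `K` there is `c > 0` such that for ALL sufficiently large `w` the `K + 1` numbers
`Gl_w, I_{w,1}, ..., I_{w,K}` satisfy no nontrivial linear relation with integer coefficients of absolute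
value at most `exp (c w)`.

Proof. All these numbers are, up to the factor `√3 / 2`, of the form `∑ g_k(n) / n ^ w` with rational
`g_k(n)` of size between `n ^ (2k) / 4` and `2 n ^ (2k)` along the multiples `n` of `6`. So only the trivial
combination of the `g_k` vanishes, the first term in which a given relation does not vanish formally has
a bounded index, and it dominates the rest of the series when the coefficients are small.
-/

set_option autoImplicit false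

namespace Pool.Agent.Results.MP_0eb725_nt.BoundedPart

open Filter Topology Real Finset
open Pool.Agent.X90.DM (dr Sm)

/-- the sum of `ρ ^ (n₂ - n₁) / (n₁ ^ (w - 2k) n₂ ^ (2k))` over `n₁ > n₂ ≥ 1`, `ρ = exp (π i / 3)`, as the
limit over `n₁ < N` -/
noncomputable def G (w k : ℕ) : ℂ := limUnder atTop fun N : ℕ =>
  ∑ n₁ ∈ Ico 1 N, ∑ n₂ ∈ Ico 1 n₁,
    Complex.exp (-((π / 3 : ℝ) : ℂ) * Complex.I * (n₁ : ℂ)) *
      Complex.exp (((π / 3 : ℝ) : ℂ) * Complex.I * (n₂ : ℂ)) /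
      ((n₁ : ℂ) ^ (w - 2 * k) * (n₂ : ℂ) ^ (2 * k))

/-- the sum of `sin (n π / 3) / n ^ w` over `n ≥ 1` -/
noncomputable def Gl (w : ℕ) : ℝ := ∑' n : ℕ, Real.sin (n * (π / 3)) / (n : ℝ) ^ w

/-- the integer sequence `sin (l π / 3) / (√3 / 2)` -/
lemma exists_chi (l : ℕ) : ∃ χ : ℤ, (χ : ℝ) * (√3 / 2) = Real.sin (l * (π / 3)) ∧ |χ| ≤ 1 := by
  have h3 : Real.sin (π / 3) = √3 / 2 := Real.sin_pi_div_three
  have h4 : Real.cos (π / 3) = 1 / 2 := Real.cos_pi_div_three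
  have h6 : ∀ j : ℕ, Real.sin (((6 * j : ℕ) : ℝ) * (π / 3)) = 0 ∧ Real.cos (((6 * j : ℕ) : ℝ) * (π / 3)) = 1 := by
    intro j
    have h7 : (((6 * j : ℕ) : ℝ) * (π / 3)) = (j : ℝ) * (2 * π) := by push_cast; ring
    rw [h7]
    exact ⟨by
      have := Real.sin_nat_mul_two_pi_sub 0 j
      rw [sub_zero, Real.sin_zero, neg_zero] at this
      exact this, Real.cos_nat_mul_two_pi j⟩
  have hs2 : (√3) ^ 2 = 3 := Real.sq_sqrt (by norm_num)
  have e1 : ∀ j r : ℕ, Real.sin (((6 * j + r : ℕ) : ℝ) * (π / 3)) = Real.sin ((r : ℝ) * (π / 3)) := by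
    intro j r
    have h7 : (((6 * j + r : ℕ) : ℝ) * (π / 3)) = (((6 * j : ℕ) : ℝ) * (π / 3)) + (r : ℝ) * (π / 3) := by
      push_cast
      ring
    rw [h7, Real.sin_add, (h6 j).1, (h6 j).2]
    ring
  have hl : l = 6 * (l / 6) + l % 6 := (Nat.div_add_mod l 6).symm
  rw [hl, e1]
  have hr : l % 6 < 6 := Nat.mod_lt _ (by norm_num)
  have s1 : Real.sin (π / 3 + π / 3) = √3 / 2 := by
    rw [Real.sin_add, h3, h4]
    ring
  have c1 : Real.cos (π / 3 + π / 3) = -1 / 2 := by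
    rw [Real.cos_add, h3, h4]
    linear_combination (-1 / 4 : ℝ) * hs2
  generalize l % 6 = r at hr
  interval_cases r
  · exact ⟨0, by norm_num, by norm_num⟩
  · exact ⟨1, by rw [Nat.cast_one, one_mul, h3]; norm_num, by norm_num⟩
  · refine ⟨1, ?_, by norm_num⟩
    have : ((2 : ℕ) : ℝ) * (π / 3) = π / 3 + π / 3 := by push_cast; ring
    rw [this, s1]
    norm_num
  · refine ⟨0, ?_, by norm_num⟩
    have : ((3 : ℕ) : ℝ) * (π / 3) = π := by push_cast; ring
    rw [this, Real.sin_pi]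
    norm_num
  · refine ⟨-1, ?_, by norm_num⟩
    have : ((4 : ℕ) : ℝ) * (π / 3) = π / 3 + π := by push_cast; ring
    rw [this, Real.sin_add_pi, h3]
    norm_num
  · refine ⟨-1, ?_, by norm_num⟩
    have : ((5 : ℕ) : ℝ) * (π / 3) = (π / 3 + π / 3) + π := by push_cast; ring
    rw [this, Real.sin_add_pi, s1]
    norm_num

/-- the integer sequence `sin (l π / 3) / (√3 / 2)` -/
noncomputable def chi (l : ℕ) : ℤ := (exists_chi l).choose

lemma chi_eq (l : ℕ) : (chi l : ℝ) * (√3 / 2) = Real.sin (l * (π / 3)) := (exists_chi l).choose_spec.1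

lemma chi_le (l : ℕ) : |chi l| ≤ 1 := (exists_chi l).choose_spec.2

lemma sq3_pos : (0 : ℝ) < √3 / 2 := by
  have : (0 : ℝ) < √3 := Real.sqrt_pos.2 (by norm_num)
  linarith

lemma chi_one : chi 1 = 1 := by
  have h1 := chi_eq 1
  rw [Nat.cast_one, one_mul, Real.sin_pi_div_three] at h1
  have h2 : (chi 1 : ℝ) = 1 := by
    have := sq3_pos
    exact mul_right_cancel₀ this.ne' (by rw [h1, one_mul])
  exact_mod_cast h2

lemma chi_sub {j m : ℕ} (hm : m ≤ 6 * j) : chi (6 * j - m) = -chi m := by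
  have h1 := chi_eq (6 * j - m)
  have h2 : (((6 * j - m : ℕ) : ℝ) * (π / 3)) = (j : ℝ) * (2 * π) - (m : ℝ) * (π / 3) := by
    rw [Nat.cast_sub hm]
    push_cast
    ring
  rw [h2, Real.sin_nat_mul_two_pi_sub, ← chi_eq m] at h1
  have h3 : (chi (6 * j - m) : ℝ) = -(chi m : ℝ) := by
    have := sq3_pos
    exact mul_right_cancel₀ this.ne' (by rw [h1]; ring)
  exact_mod_cast h3

/-- the coefficients: `g 0 n` is `chi n` and `g k n = n ^ (2k) ∑ chi(n - m) / m ^ (2k)` over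
`1 ≤ m < n`; the argument is shifted by one -/
noncomputable def g (k n : ℕ) : ℚ :=
  if k = 0 then (chi (n + 1) : ℚ) else
    ((n : ℚ) + 1) ^ (2 * k) * ∑ m ∈ Ico 1 (n + 1), (chi (n + 1 - m) : ℚ) / (m : ℚ) ^ (2 * k)

/-- the inner sum -/
noncomputable def S (k n : ℕ) : ℝ := ∑ m ∈ Ico 1 n, (chi (n - m) : ℝ) / (m : ℝ) ^ (2 * k)

lemma tail_le (n : ℕ) (hn : 3 ≤ n) : ∑ m ∈ Ico 2 n, 1 / (m : ℝ) ^ 2 ≤ 3 / 4 - 1 / (n - 1 : ℝ) := by
  induction n, hn using Nat.le_induction with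
  | base => norm_num [Finset.sum_Ico_succ_top]
  | succ n hn ih =>
    rw [Finset.sum_Ico_succ_top (by omega)]
    have h1 : (3 : ℝ) ≤ n := by exact_mod_cast hn
    have h2 : 1 / (n : ℝ) ^ 2 ≤ 1 / (n - 1 : ℝ) - 1 / ((n + 1 : ℕ) - 1 : ℝ) := by
      push_cast
      rw [add_sub_cancel_right, div_sub_div _ _ (by linarith) (by linarith),
        div_le_div_iff₀ (by positivity) (by nlinarith)]
      nlinarith
    linarith

lemma tail_le' (n : ℕ) : ∑ m ∈ Ico 2 n, 1 / (m : ℝ) ^ 2 ≤ 3 / 4 := by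
  rcases Nat.lt_or_ge n 3 with h | h
  · rw [Finset.Ico_eq_empty (by omega), sum_empty]
    norm_num
  · have h1 := tail_le n h
    have h2 : (3 : ℝ) ≤ n := by exact_mod_cast h
    have h3 : (0 : ℝ) < 1 / (n - 1 : ℝ) := by
      apply one_div_pos.2
      linarith
    linarith

lemma term_le {k m : ℕ} (hk : 1 ≤ k) (hm : 1 ≤ m) (x : ℤ) (hx : |x| ≤ 1) :
    |(x : ℝ) / (m : ℝ) ^ (2 * k)| ≤ 1 / (m : ℝ) ^ 2 := by
  have h1 : (1 : ℝ) ≤ m := by exact_mod_cast hm
  rw [abs_div, abs_of_nonneg (show (0 : ℝ) ≤ (m : ℝ) ^ (2 * k) by positivity)]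
  have h2 : |(x : ℝ)| ≤ 1 := by exact_mod_cast hx
  exact div_le_div₀ zero_le_one h2 (by positivity) (pow_le_pow_right₀ h1 (by omega))

lemma S_upper {k : ℕ} (hk : 1 ≤ k) (n : ℕ) : |S k n| ≤ 2 := by
  rw [S]
  refine (abs_sum_le_sum_abs _ _).trans ?_
  rcases Nat.lt_or_ge n 2 with h | h
  · rw [Finset.Ico_eq_empty (by omega), sum_empty]
    norm_num
  · rw [Finset.sum_eq_sum_Ico_succ_bot (by omega)]
    have h1 := term_le hk (le_refl 1) (chi (n - 1)) (chi_le _)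
    have h2 : ∑ m ∈ Ico (1 + 1) n, |(chi (n - m) : ℝ) / (m : ℝ) ^ (2 * k)| ≤
        ∑ m ∈ Ico 2 n, 1 / (m : ℝ) ^ 2 :=
      sum_le_sum fun m hm => term_le hk (by have := (mem_Ico.1 hm).1; omega) _ (chi_le _)
    have h3 := tail_le' n
    norm_num at h1 h2 ⊢
    norm_num at h3
    linarith

lemma S_lower {k : ℕ} (hk : 1 ≤ k) {j : ℕ} (hj : 1 ≤ j) : 1 / 4 ≤ |S k (6 * j)| := by
  have h0 : S k (6 * j) = -∑ m ∈ Ico 1 (6 * j), (chi m : ℝ) / (m : ℝ) ^ (2 * k) := by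
    rw [S, ← sum_neg_distrib]
    refine sum_congr rfl fun m hm => ?_
    rw [chi_sub (mem_Ico.1 hm).2.le]
    push_cast
    ring
  rw [h0, abs_neg, Finset.sum_eq_sum_Ico_succ_bot (by omega), chi_one]
  have h2 : |∑ m ∈ Ico (1 + 1) (6 * j), (chi m : ℝ) / (m : ℝ) ^ (2 * k)| ≤ 3 / 4 := by
    refine (abs_sum_le_sum_abs _ _).trans (le_trans (sum_le_sum fun m hm =>
      term_le hk (by have := (mem_Ico.1 hm).1; omega) _ (chi_le _)) (tail_le' _))
  have h3 := abs_le.1 h2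
  rw [Int.cast_one, Nat.cast_one, one_pow, div_one]
  refine le_trans ?_ (le_abs_self _)
  linarith [h3.1]

lemma g_real {k : ℕ} (hk : 1 ≤ k) (n : ℕ) :
    ((g k n : ℚ) : ℝ) = ((n : ℝ) + 1) ^ (2 * k) * S k (n + 1) := by
  rw [g, if_neg (by omega), S]
  push_cast
  rfl

lemma g_le (k n : ℕ) : |((g k n : ℚ) : ℝ)| ≤ 2 * ((n : ℝ) + 1) ^ (2 * k) := by
  rcases Nat.eq_zero_or_pos k with h | h
  · subst h
    rw [g, if_pos rfl]
    have h1 : |(chi (n + 1) : ℝ)| ≤ 1 := by exact_mod_cast chi_le (n + 1)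
    push_cast
    simp only [Nat.mul_zero, pow_zero, mul_one]
    linarith
  · rw [g_real h, abs_mul, abs_of_nonneg (by positivity), mul_comm]
    exact mul_le_mul_of_nonneg_right (S_upper h _) (by positivity)

/-- only the trivial combination vanishes -/
lemma indep (K : ℕ) (a : Fin (K + 1) → ℤ)
    (h : ∀ n, ∑ u : Fin (K + 1), (a u : ℚ) * g u n = 0) : a = 0 := by
  classical
  by_contra hne
  obtain ⟨v, hv⟩ := Function.ne_iff.1 hne
  have hv' : a v ≠ 0 := hv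
  have hex : (univ.filter fun u : Fin (K + 1) => a u ≠ 0).Nonempty := ⟨v, by simpa using hv'⟩
  obtain ⟨t, ht, htm⟩ := exists_max_image _ (fun u : Fin (K + 1) => (u : ℕ)) hex
  have hat : a t ≠ 0 := (mem_filter.1 ht).2
  have hmax : ∀ u : Fin (K + 1), (t : ℕ) < u → a u = 0 := by
    intro u hu
    by_contra hcon
    exact absurd (htm u (by simpa using hcon)) (not_le.2 hu)
  have hR : ∀ n, ∑ u : Fin (K + 1), (a u : ℝ) * ((g u n : ℚ) : ℝ) = 0 := by
    intro n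
    have := h n
    have h2 : ((∑ u : Fin (K + 1), (a u : ℚ) * g u n : ℚ) : ℝ) = 0 := by rw [this, Rat.cast_zero]
    push_cast at h2
    exact h2
  rcases Nat.eq_zero_or_pos (t : ℕ) with ht0 | ht0
  · -- only the first coefficient
    have h1 := hR 0
    rw [sum_eq_single t] at h1
    · rw [ht0, g, if_pos rfl, zero_add, chi_one] at h1
      apply hat
      have h2 : (a t : ℝ) = 0 := by simpa using h1
      exact_mod_cast h2
    · intro u _ hu
      have h2 : (t : ℕ) < u := by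
        rw [ht0]
        refine Nat.pos_of_ne_zero fun h3 => hu (Fin.ext (by rw [h3, ht0]))
      rw [hmax u h2, Int.cast_zero, zero_mul]
    · intro h3
      exact absurd (mem_univ _) h3
  · set C : ℝ := ∑ u : Fin (K + 1), 2 * |(a u : ℝ)| with hC
    have hC0 : 0 ≤ C := sum_nonneg fun u _ => by positivity
    obtain ⟨j, hj⟩ := exists_nat_gt (4 * C)
    have hj1 : 1 ≤ j + 1 := by omega
    set n : ℕ := 6 * (j + 1) - 1 with hn
    have hn1 : n + 1 = 6 * (j + 1) := by omega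
    have hnR : (n : ℝ) + 1 = 6 * ((j : ℝ) + 1) := by exact_mod_cast hn1
    set x : ℝ := (n : ℝ) + 1 with hx
    have hx1 : 1 ≤ x := by
      rw [hnR]
      have : (0 : ℝ) ≤ j := Nat.cast_nonneg _
      linarith
    have hxC : 4 * C < x := by
      rw [hnR]
      have : (0 : ℝ) ≤ j := Nat.cast_nonneg _
      linarith
    have h1 := hR n
    rw [← add_sum_erase univ _ (mem_univ t)] at h1
    have h2 : |(a t : ℝ) * ((g t n : ℚ) : ℝ)| =
        |∑ u ∈ univ.erase t, (a u : ℝ) * ((g u n : ℚ) : ℝ)| := by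
      rw [eq_neg_of_add_eq_zero_left h1, abs_neg]
    have h3 : x ^ (2 * (t : ℕ)) / 4 ≤ |(a t : ℝ) * ((g t n : ℚ) : ℝ)| := by
      rw [abs_mul, g_real ht0, abs_mul, abs_of_nonneg (show (0 : ℝ) ≤ ((n : ℝ) + 1) ^ (2 * (t : ℕ)) by positivity),
        hn1]
      have h4 := S_lower ht0 hj1
      have h5 : (1 : ℝ) ≤ |(a t : ℝ)| := by exact_mod_cast Int.one_le_abs hat
      have h6 : (0 : ℝ) ≤ x ^ (2 * (t : ℕ)) := by positivity
      calc x ^ (2 * (t : ℕ)) / 4 = 1 * (x ^ (2 * (t : ℕ)) * (1 / 4)) := by ring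
        _ ≤ |(a t : ℝ)| * (x ^ (2 * (t : ℕ)) * |S t (6 * (j + 1))|) :=
            mul_le_mul h5 (mul_le_mul_of_nonneg_left h4 h6) (by positivity) (abs_nonneg _)
    have h4 : |∑ u ∈ univ.erase t, (a u : ℝ) * ((g u n : ℚ) : ℝ)| ≤ C * x ^ (2 * (t : ℕ) - 1) := by
      refine (abs_sum_le_sum_abs _ _).trans ?_
      rw [hC, sum_mul]
      refine (sum_le_sum (f := fun u : Fin (K + 1) => |(a u : ℝ) * ((g u n : ℚ) : ℝ)|)
        (g := fun u : Fin (K + 1) => 2 * |(a u : ℝ)| * x ^ (2 * (t : ℕ) - 1)) fun u hu => ?_).trans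
        (sum_le_sum_of_subset_of_nonneg (erase_subset _ _) fun u _ _ => by positivity)
      have hut : u ≠ t := (mem_erase.1 hu).1
      rcases Nat.lt_or_ge (t : ℕ) u with h5 | h5
      · rw [hmax u h5]
        simp
      · have h6 : (u : ℕ) < t := lt_of_le_of_ne h5 fun h7 => hut (Fin.ext h7)
        rw [abs_mul]
        have h7 := g_le u n
        have h8 : x ^ (2 * (u : ℕ)) ≤ x ^ (2 * (t : ℕ) - 1) := pow_le_pow_right₀ hx1 (by omega)
        calc |(a u : ℝ)| * |((g u n : ℚ) : ℝ)| ≤ |(a u : ℝ)| * (2 * x ^ (2 * (u : ℕ))) :=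
              mul_le_mul_of_nonneg_left h7 (abs_nonneg _)
          _ ≤ |(a u : ℝ)| * (2 * x ^ (2 * (t : ℕ) - 1)) := by gcongr
          _ = _ := by ring
    have h5 : x ^ (2 * (t : ℕ)) = x ^ (2 * (t : ℕ) - 1) * x := by
      rw [← pow_succ]
      congr 1
      omega
    have h6 : x ^ (2 * (t : ℕ) - 1) * x / 4 ≤ C * x ^ (2 * (t : ℕ) - 1) := by
      rw [← h5]
      exact h3.trans (h2.le.trans h4)
    have h7 : (0 : ℝ) < x ^ (2 * (t : ℕ) - 1) := by positivity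
    nlinarith

lemma Sm_g (K : ℕ) (u : Fin (K + 1)) : Sm (2 * K + 2) (g u) := by
  have h0 : Summable fun n : ℕ => 2 * (1 / ((n : ℝ) + 1) ^ 2) := by
    have h1 := (summable_nat_add_iff 1).2 (Real.summable_one_div_nat_pow.2 (by norm_num : 1 < 2))
    refine (h1.congr fun n => ?_).mul_left _
    push_cast
    rfl
  refine Summable.of_nonneg_of_le (fun n => by positivity) (fun n => ?_) h0
  have hn : (1 : ℝ) ≤ (n : ℝ) + 1 := by linarith [(Nat.cast_nonneg n : (0 : ℝ) ≤ n)]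
  have h1 := g_le u n
  have h2 : ((n : ℝ) + 1) ^ (2 * (u : ℕ)) ≤ ((n : ℝ) + 1) ^ (2 * K) :=
    pow_le_pow_right₀ hn (by have := u.2; omega)
  rw [div_le_iff₀ (by positivity)]
  calc |((g u n : ℚ) : ℝ)| ≤ 2 * ((n : ℝ) + 1) ^ (2 * K) := by linarith
    _ = 2 * (1 / ((n : ℝ) + 1) ^ 2) * ((n : ℝ) + 1) ^ (2 * K + 2) := by
        rw [pow_add]
        field_simp

lemma Gl_eq (w : ℕ) (hw : 1 ≤ w) : Gl w = √3 / 2 * dr (g 0) w := by
  rw [Gl, dr, ← tsum_mul_left]
  have h0 : ∀ n : ℕ, n ∉ Set.range (fun n : ℕ => n + 1) → Real.sin (n * (π / 3)) / (n : ℝ) ^ w = 0 := by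
    intro n hn
    rcases Nat.eq_zero_or_pos n with h | h
    · subst h
      simp
    · exact absurd ⟨n - 1, Nat.sub_add_cancel h⟩ hn
  rw [← Function.Injective.tsum_eq (add_left_injective 1) (fun n hn => by
    by_contra hcon
    exact hn (h0 n hcon))]
  refine tsum_congr fun n => ?_
  rw [← chi_eq, g, if_pos rfl]
  push_cast
  ring

/-- the terms of the outer sum -/
noncomputable def tt (w k n : ℕ) : ℂ := ∑ m ∈ Ico 1 n,
    Complex.exp (-((π / 3 : ℝ) : ℂ) * Complex.I * (n : ℂ)) *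
      Complex.exp (((π / 3 : ℝ) : ℂ) * Complex.I * (m : ℂ)) /
      ((n : ℂ) ^ (w - 2 * k) * (m : ℂ) ^ (2 * k))

lemma norm_exp_one (x : ℝ) (n : ℕ) : ‖Complex.exp ((x : ℂ) * Complex.I * (n : ℂ))‖ = 1 := by
  have h : (x : ℂ) * Complex.I * (n : ℂ) = ((x * n : ℝ) : ℂ) * Complex.I := by push_cast; ring
  rw [h, Complex.norm_exp_ofReal_mul_I]

lemma norm_tt {w k n : ℕ} (hw : 2 * k + 3 ≤ w) (hn : 1 ≤ n) : ‖tt w k n‖ ≤ 1 / (n : ℝ) ^ 2 := by
  have hn1 : (1 : ℝ) ≤ n := by exact_mod_cast hn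
  rw [tt]
  refine (norm_sum_le _ _).trans ?_
  have h1 : ∀ m ∈ Ico 1 n, ‖Complex.exp (-((π / 3 : ℝ) : ℂ) * Complex.I * (n : ℂ)) *
      Complex.exp (((π / 3 : ℝ) : ℂ) * Complex.I * (m : ℂ)) /
      ((n : ℂ) ^ (w - 2 * k) * (m : ℂ) ^ (2 * k))‖ ≤ 1 / (n : ℝ) ^ 3 := by
    intro m hm
    have hm1 : (1 : ℝ) ≤ m := by exact_mod_cast (mem_Ico.1 hm).1
    rw [norm_div, norm_mul, ← Complex.ofReal_neg, norm_exp_one, norm_exp_one, norm_mul, norm_pow, norm_pow,
      Complex.norm_natCast, Complex.norm_natCast, one_mul]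
    refine div_le_div_of_nonneg_left zero_le_one (by positivity) ?_
    calc (n : ℝ) ^ 3 = (n : ℝ) ^ 3 * 1 := (mul_one _).symm
      _ ≤ (n : ℝ) ^ (w - 2 * k) * (m : ℝ) ^ (2 * k) :=
          mul_le_mul (pow_le_pow_right₀ hn1 (by omega)) (one_le_pow₀ hm1) zero_le_one (by positivity)
  refine (sum_le_sum h1).trans ?_
  rw [sum_const, nsmul_eq_mul, Nat.card_Ico]
  have h2 : ((n - 1 : ℕ) : ℝ) ≤ n := by exact_mod_cast Nat.sub_le _ _
  calc ((n - 1 : ℕ) : ℝ) * (1 / (n : ℝ) ^ 3) ≤ n * (1 / (n : ℝ) ^ 3) :=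
        mul_le_mul_of_nonneg_right h2 (by positivity)
    _ = 1 / (n : ℝ) ^ 2 := by field_simp

lemma summ_tt {w k : ℕ} (hw : 2 * k + 3 ≤ w) : Summable fun n : ℕ => tt w k (n + 1) := by
  have h0 : Summable fun n : ℕ => 1 / ((n + 1 : ℕ) : ℝ) ^ 2 :=
    (summable_nat_add_iff 1).2 (Real.summable_one_div_nat_pow.2 (by norm_num : 1 < 2))
  exact Summable.of_norm_bounded h0 fun n => norm_tt hw (by omega)

lemma G_eq {w k : ℕ} (hw : 2 * k + 3 ≤ w) : G w k = ∑' n : ℕ, tt w k (n + 1) := by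
  rw [G]
  refine Tendsto.limUnder_eq ?_
  have h1 := (summ_tt hw).hasSum.tendsto_sum_nat
  rw [← tendsto_add_atTop_iff_nat 1]
  refine Tendsto.congr (fun L => ?_) h1
  rw [Finset.sum_Ico_eq_sum_range, Nat.add_sub_cancel]
  refine Finset.sum_congr rfl fun n _ => ?_
  rw [add_comm 1 n]
  rfl

lemma tt_im {w k n : ℕ} : (tt w k n).im = -(√3 / 2) * (S k n / (n : ℝ) ^ (w - 2 * k)) := by
  rw [tt, Complex.im_sum, S, sum_div, mul_sum]
  refine sum_congr rfl fun m hm => ?_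
  have hmn : m ≤ n := (mem_Ico.1 hm).2.le
  have h1 : Complex.exp (-((π / 3 : ℝ) : ℂ) * Complex.I * (n : ℂ)) *
      Complex.exp (((π / 3 : ℝ) : ℂ) * Complex.I * (m : ℂ)) /
      ((n : ℂ) ^ (w - 2 * k) * (m : ℂ) ^ (2 * k)) =
      Complex.exp (((-(((n - m : ℕ) : ℝ) * (π / 3)) : ℝ) : ℂ) * Complex.I) *
        ((1 / ((n : ℝ) ^ (w - 2 * k) * (m : ℝ) ^ (2 * k)) : ℝ) : ℂ) := by
    rw [← Complex.exp_add, Nat.cast_sub hmn]
    have h2 : -((π / 3 : ℝ) : ℂ) * Complex.I * (n : ℂ) + ((π / 3 : ℝ) : ℂ) * Complex.I * (m : ℂ) =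
        ((-(((n : ℝ) - (m : ℝ)) * (π / 3)) : ℝ) : ℂ) * Complex.I := by
      push_cast
      ring
    rw [h2]
    push_cast
    ring
  rw [h1, Complex.im_mul_ofReal, Complex.exp_ofReal_mul_I_im, Real.sin_neg, ← chi_eq]
  rw [one_div, mul_inv]
  ring

lemma G_im {w k : ℕ} (hk : 1 ≤ k) (hw : 2 * k + 3 ≤ w) : (G w k).im = -(√3 / 2) * dr (g k) w := by
  rw [G_eq hw, Complex.im_tsum (summ_tt hw), dr, ← tsum_mul_left]
  refine tsum_congr fun n => ?_
  rw [tt_im, g_real hk]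
  have h3 : ((n : ℝ) + 1) ^ w = ((n : ℝ) + 1) ^ (w - 2 * k) * ((n : ℝ) + 1) ^ (2 * k) := by
    rw [← pow_add]
    congr 1
    omega
  have hn : ((n : ℝ) + 1) ≠ 0 := by positivity
  push_cast
  rw [h3]
  field_simp

/-- **No small relation between `π ^ w` and the first integrals.** (1) For every `K` there is `c > 0` such
that for all sufficiently large `w` there are no integers `a_0, ..., a_K` of absolute value at most
`exp (c w)`, not all zero, with `a_0 Gl_w + ∑_{k ≤ K} a_k Im G_{w,k} = 0`. (2) For odd `w ≥ 3` the number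
`Gl_w` is a rational multiple of `π ^ w`. -/
theorem result :
    (∀ K : ℕ, ∃ c : ℝ, 0 < c ∧ ∃ w0 : ℕ, ∀ w : ℕ, w0 ≤ w → ∀ a : ℕ → ℤ,
      (∃ k ≤ K, a k ≠ 0) → (∀ k ≤ K, |(a k : ℝ)| ≤ Real.exp (c * w)) →
      (a 0 : ℝ) * Gl w + ∑ k ∈ Icc 1 K, (a k : ℝ) * (G w k).im ≠ 0) ∧
    (∀ w : ℕ, Odd w → 3 ≤ w → ∃ q : ℚ, Gl w = q * π ^ w) := by
  refine ⟨fun K => ?_, ?_⟩
  · obtain ⟨c, hc, w0, h⟩ := Pool.Agent.X90.DN.one (fun u : Fin (K + 1) => g u) (Sm_g K) (indep K)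
    refine ⟨c, hc, max w0 (2 * K + 3), fun w hw a ha hac h0 => ?_⟩
    have hw1 : w0 ≤ w := (le_max_left _ _).trans hw
    have hw2 : 2 * K + 3 ≤ w := (le_max_right _ _).trans hw
    obtain ⟨k, hk, hak⟩ := ha
    set b : Fin (K + 1) → ℤ := fun u => if (u : ℕ) = 0 then a 0 else -a u with hb
    refine h w hw1 b ?_ ?_ ?_
    · intro h1
      have h2 := congrFun h1 ⟨k, by omega⟩
      simp only [hb, Pi.zero_apply] at h2
      split_ifs at h2 with h3
      · exact hak (by rw [h3]; exact h2)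
      · exact hak (by linarith)
    · intro u
      have hu : (u : ℕ) ≤ K := by have := u.2; omega
      simp only [hb]
      split_ifs with h3
      · exact hac 0 (Nat.zero_le _)
      · push_cast
        rw [abs_neg]
        exact hac u hu
    · have h1 : √3 / 2 * ∑ u : Fin (K + 1), (b u : ℝ) * dr (g u) w =
          (a 0 : ℝ) * Gl w + ∑ k ∈ Icc 1 K, (a k : ℝ) * (G w k).im := by
        rw [Fin.sum_univ_succ, mul_add, mul_sum]
        congr 1
        · simp only [hb]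
          rw [if_pos (by simp), Gl_eq w (by omega)]
          simp only [Fin.val_zero]
          ring
        · rw [← Finset.Ico_add_one_right_eq_Icc, Finset.sum_Ico_eq_sum_range, Nat.add_sub_cancel,
            ← Fin.sum_univ_eq_sum_range (fun i => (a (1 + i) : ℝ) * (G w (1 + i)).im) K]
          refine sum_congr rfl fun i _ => ?_
          have hi := i.2
          simp only [hb, Fin.val_succ]
          rw [if_neg (by omega), add_comm 1 (i : ℕ), G_im (by omega) (by omega)]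
          push_cast
          ring
      rw [h0] at h1
      exact (mul_eq_zero.1 h1).resolve_left sq3_pos.ne'
  · intro w hw h3
    obtain ⟨j, rfl⟩ := hw
    have hj : j ≠ 0 := by omega
    have h1 := hasSum_one_div_nat_pow_mul_sin hj (x := 1 / 6) ⟨by norm_num, by norm_num⟩
    have h2 : Gl (2 * j + 1) = (-1) ^ (j + 1) * (2 * π) ^ (2 * j + 1) / 2 / (2 * j + 1).factorial *
        (Polynomial.map (algebraMap ℚ ℝ) (Polynomial.bernoulli (2 * j + 1))).eval (1 / 6) := by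
      rw [← h1.tsum_eq, Gl]
      refine tsum_congr fun n => ?_
      have h4 : (n : ℝ) * (π / 3) = 2 * π * n * (1 / 6) := by ring
      rw [h4]
      ring
    refine ⟨(-1) ^ (j + 1) * 2 ^ (2 * j + 1) / 2 / (2 * j + 1).factorial *
      (Polynomial.bernoulli (2 * j + 1)).eval (1 / 6), ?_⟩
    have h5 : (Polynomial.map (algebraMap ℚ ℝ) (Polynomial.bernoulli (2 * j + 1))).eval (1 / 6 : ℝ) =
        (((Polynomial.bernoulli (2 * j + 1)).eval (1 / 6 : ℚ) : ℚ) : ℝ) := by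
      have h6 : (1 / 6 : ℝ) = algebraMap ℚ ℝ (1 / 6 : ℚ) := by norm_num
      rw [h6, Polynomial.eval_map_algebraMap, Polynomial.aeval_algebraMap_apply]
      rfl
    rw [h2, h5, mul_pow]
    push_cast
    ring

end Pool.Agent.Results.MP_0eb725_nt.BoundedPart
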